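import Mathlib

set_option autoImplicit false

namespace Pool.Agent.Results.MP_846857_nt.ExponentParity

open Finset ArithmeticFunction

/-- `a(n) = n τ(n) - ∑_{d ∣ n, d < n} d τ(d)`, as an integer. -/
def a (n : ℕ) : ℤ :=
  (n : ℤ) * (n.divisors.card : ℤ) - ∑ d ∈ n.properDivisors, (d : ℤ) * (d.divisors.card : ℤ)

noncomputable def F : ArithmeticFunction ℕ := (pmul ArithmeticFunction.id (sigma 0)) * zeta

lemma F_mult : F.IsMultiplicative :=
  (isMultiplicative_id.pmul isMultiplicative_sigma).mul isMultiplicative_zeta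

lemma F_apply (n : ℕ) : F n = ∑ d ∈ n.divisors, d * d.divisors.card := by
  unfold F
  rw [mul_zeta_apply]
  refine Finset.sum_congr rfl fun d _ => ?_
  simp [sigma_zero_apply]

lemma F_pow (p k : ℕ) (hp : p.Prime) : F (p ^ k) = ∑ j ∈ range (k + 1), p ^ j * (j + 1) := by
  rw [F_apply, Nat.sum_divisors_prime_pow hp]
  refine Finset.sum_congr rfl fun j _ => ?_
  rw [Nat.divisors_prime_pow hp]; simp

lemma S_pow (p k : ℕ) (hp : p.Prime) : sigma 1 (p ^ k) = ∑ j ∈ range (k + 1), p ^ j := by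
  rw [sigma_one_apply, Nat.sum_divisors_prime_pow hp]

lemma F_par (p k : ℕ) (hp : p.Prime) : 2 ∣ F (p ^ k) ↔ p ≠ 2 ∧ 2 ≤ k % 4 := by
  rw [F_pow p k hp]
  rcases hp.eq_two_or_odd with rfl | ho
  · induction k with
    | zero => simp
    | succ k ih =>
      rw [Finset.sum_range_succ, pow_succ, mul_assoc, mul_comm (2 ^ k), mul_assoc]; omega
  · induction k with
    | zero => simp
    | succ k ih =>
      rw [Finset.sum_range_succ]
      have h : (p ^ (k + 1) * (k + 1 + 1)) % 2 = (k + 1 + 1) % 2 := by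
        rw [Nat.mul_mod, Nat.pow_mod, ho]; simp
      omega

lemma S_par (p k : ℕ) (hp : p.Prime) : 2 ∣ sigma 1 (p ^ k) ↔ p ≠ 2 ∧ k % 2 = 1 := by
  rw [S_pow p k hp]
  rcases hp.eq_two_or_odd with rfl | ho
  · induction k with
    | zero => simp
    | succ k ih => rw [Finset.sum_range_succ, pow_succ]; omega
  · induction k with
    | zero => simp
    | succ k ih =>
      rw [Finset.sum_range_succ]
      have h : (p ^ (k + 1)) % 2 = 1 := by rw [Nat.pow_mod, ho]; simp
      omega

lemma two_dvd (f : ArithmeticFunction ℕ) (hf : f.IsMultiplicative) (n : ℕ) (hn : n ≠ 0) :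
    2 ∣ f n ↔ ∃ p ∈ n.primeFactors, 2 ∣ f (p ^ n.factorization p) := by
  rw [hf.multiplicative_factorization f hn, Finsupp.prod, Nat.prime_two.prime.dvd_finsetProd_iff]
  simp

/-- If `a(n) = σ(n)` then either every odd prime occurs in `n` to an exponent divisible by `4`,
or some odd prime has an odd exponent and some odd prime has exponent `2` or `3` modulo `4`. -/
theorem result (n : ℕ) (hn : 0 < n) (h : a n = ∑ d ∈ n.divisors, (d : ℤ)) :
    (∀ p : ℕ, p.Prime → p ≠ 2 → 4 ∣ n.factorization p) ∨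
    ((∃ p : ℕ, p.Prime ∧ p ≠ 2 ∧ n.factorization p % 2 = 1) ∧
      ∃ q : ℕ, q.Prime ∧ q ≠ 2 ∧ 2 ≤ n.factorization q % 4) := by
  have e : F n + sigma 1 n = 2 * (n * n.divisors.card) := by
    rw [F_apply, sigma_one_apply, ← Nat.cons_self_properDivisors hn.ne', Finset.sum_cons,
      Nat.cons_self_properDivisors hn.ne']
    unfold a at h
    zify
    linarith
  have h1 := two_dvd F F_mult n hn.ne'
  have h2 := two_dvd (sigma 1) isMultiplicative_sigma n hn.ne'
  by_cases hF : 2 ∣ F n
  · right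
    obtain ⟨q, hq, hq2⟩ := h1.1 hF
    obtain ⟨p, hp, hp2⟩ := h2.1 (by omega)
    have hq' := Nat.prime_of_mem_primeFactors hq
    have hp' := Nat.prime_of_mem_primeFactors hp
    exact ⟨⟨p, hp', (S_par _ _ hp').1 hp2⟩, ⟨q, hq', (F_par _ _ hq').1 hq2⟩⟩
  · left
    intro p hp h2'
    by_cases hm : p ∈ n.primeFactors
    · have a1 : ¬ 2 ≤ n.factorization p % 4 := fun c => hF (h1.2 ⟨p, hm, (F_par _ _ hp).2 ⟨h2', c⟩⟩)
      have a2 : ¬ n.factorization p % 2 = 1 := fun c =>
        hF (by have := h2.2 ⟨p, hm, (S_par _ _ hp).2 ⟨h2', c⟩⟩; omega)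
      omega
    · have : n.factorization p = 0 := by
        rw [← Nat.support_factorization, Finsupp.notMem_support_iff] at hm; exact hm
      rw [this]; exact dvd_zero _

end Pool.Agent.Results.MP_846857_nt.ExponentParity
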